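import Mathlib
import Pool.Agent.U309.ZF.Stm

/-!
# Project ZF, package CNT (helper891): counting homomorphisms to `ℤ/p`

The primes of norm `p` of `K` correspond to the homomorphisms `𝓞 K → ℤ/p`. If `p` does not divide the index `m` of
`𝓞 K ⊗ 𝓞 K` in `𝓞 K × 𝓞 K₂`, a pair of homomorphisms `𝓞 K → ℤ/p` gives a homomorphism of `𝓞 K ⊗ 𝓞 K`, which extends
to `𝓞 K × 𝓞 K₂`, and so a homomorphism of `𝓞 K` or of `𝓞 K₂`.
-/

set_option autoImplicit false

open NumberField IsDedekindDomain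
open scoped TensorProduct

namespace Pool.Agent.U891.ZF

open Pool.Agent.U309.ZF

section hom

variable (K : Type) [Field K] [NumberField K] (p : ℕ) [hp : Fact p.Prime]

lemma absNorm_ker (φ : 𝓞 K →+* ZMod p) : Ideal.absNorm (RingHom.ker φ) = p := by
  rw [Ideal.absNorm_apply, Submodule.cardQuot_apply]
  have e := RingHom.quotientKerEquivOfSurjective (ZMod.ringHom_surjective φ)
  rw [Nat.card_congr e.toEquiv, Nat.card_zmod]

/-- the prime of norm `p` of a homomorphism to `ℤ/p` -/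
noncomputable def toPrime (φ : 𝓞 K →+* ZMod p) :
    {v : HeightOneSpectrum (𝓞 K) // Ideal.absNorm v.asIdeal = p} :=
  ⟨⟨RingHom.ker φ, RingHom.ker_isPrime φ, by
    intro h
    have h1 := absNorm_ker K p φ
    rw [h, Ideal.absNorm_bot] at h1
    exact hp.out.ne_zero h1.symm⟩, absNorm_ker K p φ⟩

lemma toPrime_injective : Function.Injective (toPrime K p) := by
  intro φ ψ h
  apply ZMod.ringHom_eq_of_ker_eq
  have h1 := congrArg (fun v => v.1.asIdeal) h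
  exact h1

lemma toPrime_surjective : Function.Surjective (toPrime K p) := by
  rintro ⟨v, hv⟩
  have h1 : Nat.card (𝓞 K ⧸ v.asIdeal) = p := by
    rw [Ideal.absNorm_apply, Submodule.cardQuot_apply] at hv
    exact hv
  have : Finite (𝓞 K ⧸ v.asIdeal) := Nat.finite_of_card_ne_zero (by rw [h1]; exact hp.out.ne_zero)
  let := Fintype.ofFinite (𝓞 K ⧸ v.asIdeal)
  let e : ZMod p ≃+* (𝓞 K ⧸ v.asIdeal) := ZMod.ringEquivOfPrime _ hp.out (by
    rw [← Nat.card_eq_fintype_card, h1])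
  refine ⟨(e.symm : (𝓞 K ⧸ v.asIdeal) →+* ZMod p).comp (Ideal.Quotient.mk v.asIdeal), ?_⟩
  apply Subtype.ext
  apply HeightOneSpectrum.ext
  show RingHom.ker _ = v.asIdeal
  ext x
  rw [RingHom.mem_ker, RingHom.comp_apply]
  constructor
  · intro h
    have h2 : e.symm (Ideal.Quotient.mk v.asIdeal x) = 0 := h
    rw [map_eq_zero_iff _ e.symm.injective] at h2
    exact Ideal.Quotient.eq_zero_iff_mem.1 h2
  · intro h
    rw [Ideal.Quotient.eq_zero_iff_mem.2 h, map_zero]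

lemma pi1_eq : pi1 K p = Nat.card (𝓞 K →+* ZMod p) := by
  unfold pi1
  exact (Nat.card_congr (Equiv.ofBijective _ ⟨toPrime_injective K p, toPrime_surjective K p⟩)).symm

instance finite_hom : Finite (𝓞 K →+* ZMod p) := by
  have h1 : {I : Ideal (𝓞 K) | Ideal.absNorm I = p}.Finite := Ideal.finite_setOfPred_absNorm_eq p
  have := h1.to_subtype
  refine Finite.of_injective (fun φ : 𝓞 K →+* ZMod p =>
    (⟨RingHom.ker φ, absNorm_ker K p φ⟩ : {I : Ideal (𝓞 K) | Ideal.absNorm I = p})) ?_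
  intro φ ψ h
  apply ZMod.ringHom_eq_of_ker_eq
  exact congrArg Subtype.val h

end hom

section tensor

variable (K : Type) [Field K] [NumberField K]

/-- `𝓞 K ⊗ 𝓞 K → K ⊗ K` -/
noncomputable def theta : (𝓞 K ⊗[ℤ] 𝓞 K) →ₐ[ℤ] (K ⊗[ℚ] K) :=
  Algebra.TensorProduct.lift
    (((Algebra.TensorProduct.includeLeft : K →ₐ[ℚ] K ⊗[ℚ] K).restrictScalars ℤ).comp
      (IsScalarTower.toAlgHom ℤ (𝓞 K) K))
    (((Algebra.TensorProduct.includeRight : K →ₐ[ℚ] K ⊗[ℚ] K).restrictScalars ℤ).comp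
      (IsScalarTower.toAlgHom ℤ (𝓞 K) K))
    (fun _ _ => Commute.all _ _)

lemma theta_tmul (x y : 𝓞 K) : theta K (x ⊗ₜ[ℤ] y) = (x : K) ⊗ₜ[ℚ] (y : K) := by
  unfold theta
  rw [Algebra.TensorProduct.lift_tmul]
  show ((x : K) ⊗ₜ[ℚ] (1 : K)) * ((1 : K) ⊗ₜ[ℚ] (y : K)) = _
  rw [Algebra.TensorProduct.tmul_mul_tmul, mul_one, one_mul]

lemma theta_injective : Function.Injective (theta K) := by
  rw [injective_iff_map_eq_zero]
  intro z hz
  let b := RingOfIntegers.basis K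
  let B := b.tensorProduct b
  let BK := (integralBasis K).tensorProduct (integralBasis K)
  have h1 : ∀ i, theta K (B i) = BK i := by
    rintro ⟨i, j⟩
    show theta K (b.tensorProduct b (i, j)) = (integralBasis K).tensorProduct (integralBasis K) (i, j)
    rw [Module.Basis.tensorProduct_apply, Module.Basis.tensorProduct_apply, theta_tmul]
    rw [integralBasis_apply, integralBasis_apply]
  have h2 : LinearIndependent ℤ (fun i => BK i) :=
    BK.linearIndependent.restrict_scalars (by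
      intro r s h
      simpa using h)
  rw [Fintype.linearIndependent_iff] at h2
  have h3 : ∑ i, B.repr z i • BK i = 0 := by
    have h4 : theta K (∑ i, B.repr z i • B i) = 0 := by rw [B.sum_repr, hz]
    rw [map_sum] at h4
    simp_rw [map_smul, h1] at h4
    exact h4
  have h5 := h2 _ h3
  rw [← B.sum_repr z]
  exact Finset.sum_eq_zero fun i _ => by rw [h5 i, zero_smul]

end tensor

section extend

variable {K K₂ : Type} [Field K] [NumberField K] [Field K₂] [NumberField K₂]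
  (e : (K ⊗[ℚ] K) ≃ₐ[ℚ] (K × K₂)) (m : ℤ)

/-- the inclusion `𝓞 K × 𝓞 K₂ → K × K₂` -/
noncomputable def jj (K K₂ : Type) [Field K] [NumberField K] [Field K₂] [NumberField K₂] :
    (𝓞 K × 𝓞 K₂) →+* (K × K₂) :=
  RingHom.prodMap (algebraMap (𝓞 K) K) (algebraMap (𝓞 K₂) K₂)

lemma jj_injective : Function.Injective (jj K K₂) := by
  rintro ⟨x, y⟩ ⟨x', y'⟩ h
  have h1 := congrArg Prod.fst h
  have h2 := congrArg Prod.snd h
  exact Prod.ext (RingOfIntegers.ext h1) (RingOfIntegers.ext h2)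

/-- the index hypothesis -/
def Idx : Prop := ∀ z : 𝓞 K × 𝓞 K₂, ∃ w : 𝓞 K ⊗[ℤ] 𝓞 K, e (theta K w) = m • jj K K₂ z

lemma idx_of (h : ∀ (x : 𝓞 K) (y : 𝓞 K₂), ∃ l : List (𝓞 K × 𝓞 K),
        e ((l.map fun u => (u.1 : K) ⊗ₜ[ℚ] (u.2 : K)).sum) = (m : ℤ) • ((x : K), (y : K₂))) : Idx e m := by
  rintro ⟨x, y⟩
  obtain ⟨l, hl⟩ := h x y
  refine ⟨(l.map fun u => u.1 ⊗ₜ[ℤ] u.2).sum, ?_⟩
  rw [map_list_sum, List.map_map]
  have h1 : (theta K ∘ fun u : 𝓞 K × 𝓞 K => u.1 ⊗ₜ[ℤ] u.2) = fun u => (u.1 : K) ⊗ₜ[ℚ] (u.2 : K) := by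
    funext u
    exact theta_tmul K _ _
  rw [h1, hl]
  rfl

variable {e m}

lemma eth_injective : Function.Injective (fun w : 𝓞 K ⊗[ℤ] 𝓞 K => e (theta K w)) :=
  e.injective.comp (theta_injective K)

variable (p : ℕ) [hp : Fact p.Prime]

/-- the homomorphism `x ⊗ y ↦ φ₁(x) φ₂(y)` -/
noncomputable def psi0 (φ₁ φ₂ : 𝓞 K →+* ZMod p) : (𝓞 K ⊗[ℤ] 𝓞 K) →ₐ[ℤ] ZMod p :=
  Algebra.TensorProduct.lift φ₁.toIntAlgHom φ₂.toIntAlgHom (fun _ _ => Commute.all _ _)

lemma psi0_tmul (φ₁ φ₂ : 𝓞 K →+* ZMod p) (x y : 𝓞 K) : psi0 p φ₁ φ₂ (x ⊗ₜ[ℤ] y) = φ₁ x * φ₂ y := by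
  unfold psi0
  rw [Algebra.TensorProduct.lift_tmul]
  rfl

lemma exists_psi (hI : Idx e m) (hm : (m : ZMod p) ≠ 0) (φ₁ φ₂ : 𝓞 K →+* ZMod p) :
    ∃ ψ : (𝓞 K × 𝓞 K₂) →+* ZMod p, ∀ (z : 𝓞 K × 𝓞 K₂) (w : 𝓞 K ⊗[ℤ] 𝓞 K),
      e (theta K w) = m • jj K K₂ z → (m : ZMod p) * ψ z = psi0 p φ₁ φ₂ w := by
  choose W hW using hI
  have key : ∀ (z : 𝓞 K × 𝓞 K₂) (w : 𝓞 K ⊗[ℤ] 𝓞 K), e (theta K w) = m • jj K K₂ z → w = W z :=
    fun z w h => eth_injective (e := e) (h.trans (hW z).symm)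
  let f : 𝓞 K × 𝓞 K₂ → ZMod p := fun z => (m : ZMod p)⁻¹ * psi0 p φ₁ φ₂ (W z)
  refine ⟨{ toFun := f, map_one' := ?_, map_mul' := ?_, map_zero' := ?_, map_add' := ?_ }, ?_⟩
  · have h1 : (m : 𝓞 K ⊗[ℤ] 𝓞 K) = W 1 := by
      apply key
      rw [map_intCast, map_intCast, map_one, zsmul_one]
    show (m : ZMod p)⁻¹ * psi0 p φ₁ φ₂ (W 1) = 1
    rw [← h1, map_intCast, inv_mul_cancel₀ hm]
  · intro z z'
    have h1 : W z * W z' = m • W (z * z') := by
      apply eth_injective (e := e)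
      show e (theta K (W z * W z')) = e (theta K (m • W (z * z')))
      rw [map_mul, map_mul, hW, hW, map_zsmul, map_zsmul, hW, map_mul, smul_mul_smul_comm, smul_smul]
    show (m : ZMod p)⁻¹ * psi0 p φ₁ φ₂ (W (z * z')) =
      ((m : ZMod p)⁻¹ * psi0 p φ₁ φ₂ (W z)) * ((m : ZMod p)⁻¹ * psi0 p φ₁ φ₂ (W z'))
    have h2 : psi0 p φ₁ φ₂ (W z) * psi0 p φ₁ φ₂ (W z') = (m : ZMod p) * psi0 p φ₁ φ₂ (W (z * z')) := by
      rw [← map_mul, h1, map_zsmul, zsmul_eq_mul]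
    calc (m : ZMod p)⁻¹ * psi0 p φ₁ φ₂ (W (z * z'))
        = (m : ZMod p)⁻¹ * (m : ZMod p)⁻¹ * ((m : ZMod p) * psi0 p φ₁ φ₂ (W (z * z'))) := by
          field_simp
      _ = _ := by rw [← h2]; ring
  · have h1 : (0 : 𝓞 K ⊗[ℤ] 𝓞 K) = W 0 := by
      apply key
      rw [map_zero, map_zero, map_zero, smul_zero]
    show (m : ZMod p)⁻¹ * psi0 p φ₁ φ₂ (W 0) = 0
    rw [← h1, map_zero, mul_zero]
  · intro z z'
    have h1 : W z + W z' = W (z + z') := by
      apply key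
      rw [map_add, map_add, hW, hW, map_add, smul_add]
    show (m : ZMod p)⁻¹ * psi0 p φ₁ φ₂ (W (z + z')) = (m : ZMod p)⁻¹ * psi0 p φ₁ φ₂ (W z) +
      (m : ZMod p)⁻¹ * psi0 p φ₁ φ₂ (W z')
    rw [← h1, map_add, mul_add]
  · intro z w hw
    show (m : ZMod p) * ((m : ZMod p)⁻¹ * psi0 p φ₁ φ₂ (W z)) = _
    rw [key z w hw, mul_inv_cancel_left₀ hm]

lemma exists_preim (x : 𝓞 K ⊗[ℤ] 𝓞 K) (hx : ∀ t : K ⊗[ℚ] K, t = theta K x → IsIntegral ℤ t) :
    ∃ z : 𝓞 K × 𝓞 K₂, e (theta K x) = jj K K₂ z := by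
  have h1 : IsIntegral ℤ (e (theta K x)) := (hx _ rfl).map (e.toAlgHom.restrictScalars ℤ)
  have h2 : IsIntegral ℤ (e (theta K x)).1 :=
    h1.map ((AlgHom.fst ℚ K K₂).restrictScalars ℤ)
  have h3 : IsIntegral ℤ (e (theta K x)).2 :=
    h1.map ((AlgHom.snd ℚ K K₂).restrictScalars ℤ)
  exact ⟨(⟨_, h2⟩, ⟨_, h3⟩), rfl⟩

lemma integral_left (x : 𝓞 K) : IsIntegral ℤ (theta K (x ⊗ₜ[ℤ] (1 : 𝓞 K))) := by
  rw [theta_tmul, show ((1 : 𝓞 K) : K) = 1 from rfl]
  exact (RingOfIntegers.isIntegral_coe x).map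
    ((Algebra.TensorProduct.includeLeft : K →ₐ[ℚ] K ⊗[ℚ] K).restrictScalars ℤ)

lemma integral_right (x : 𝓞 K) : IsIntegral ℤ (theta K ((1 : 𝓞 K) ⊗ₜ[ℤ] x)) := by
  rw [theta_tmul, show ((1 : 𝓞 K) : K) = 1 from rfl]
  exact (RingOfIntegers.isIntegral_coe x).map
    ((Algebra.TensorProduct.includeRight : K →ₐ[ℚ] K ⊗[ℚ] K).restrictScalars ℤ)

lemma psi_det (hI : Idx e m) (hm : (m : ZMod p) ≠ 0) :
    ∃ Ψ : (𝓞 K →+* ZMod p) × (𝓞 K →+* ZMod p) → ((𝓞 K × 𝓞 K₂) →+* ZMod p), Function.Injective Ψ := by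
  choose Ψ hΨ using fun φ : (𝓞 K →+* ZMod p) × (𝓞 K →+* ZMod p) => exists_psi p hI hm φ.1 φ.2
  refine ⟨Ψ, ?_⟩
  have h1 : ∀ (φ : (𝓞 K →+* ZMod p) × (𝓞 K →+* ZMod p)) (w : 𝓞 K ⊗[ℤ] 𝓞 K) (z : 𝓞 K × 𝓞 K₂),
      e (theta K w) = jj K K₂ z → Ψ φ z = psi0 p φ.1 φ.2 w := by
    intro φ w z h
    have h2 := hΨ φ z (m • w) (by rw [map_zsmul, map_zsmul, h])
    rw [map_zsmul, zsmul_eq_mul] at h2
    exact mul_left_cancel₀ hm h2
  intro φ φ' h
  apply Prod.ext
  · apply RingHom.ext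
    intro x
    obtain ⟨z, hz⟩ := exists_preim (e := e) (x ⊗ₜ[ℤ] (1 : 𝓞 K)) (fun t ht => ht ▸ integral_left x)
    have h2 := h1 φ _ z hz
    have h3 := h1 φ' _ z hz
    rw [← h, h2, psi0_tmul, psi0_tmul, map_one, map_one, mul_one, mul_one] at h3
    exact h3
  · apply RingHom.ext
    intro x
    obtain ⟨z, hz⟩ := exists_preim (e := e) ((1 : 𝓞 K) ⊗ₜ[ℤ] x) (fun t ht => ht ▸ integral_right x)
    have h2 := h1 φ _ z hz
    have h3 := h1 φ' _ z hz
    rw [← h, h2, psi0_tmul, psi0_tmul, map_one, map_one, one_mul, one_mul] at h3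
    exact h3

end extend

section prod

/-- homomorphisms of a product to a field -/
lemma exists_sum_injective (A B F : Type) [CommRing A] [CommRing B] [Field F] :
    ∃ Θ : ((A × B) →+* F) → (A →+* F) ⊕ (B →+* F), Function.Injective Θ := by
  have h0 : ∀ ψ : (A × B) →+* F, (∃ α : A →+* F, ∀ x y, ψ (x, y) = α x) ∨ (∃ β : B →+* F, ∀ x y, ψ (x, y) = β y) := by
    intro ψ
    have h1 : ψ (1, 0) + ψ (0, 1) = 1 := by
      rw [← map_add, Prod.mk_add_mk, add_zero, zero_add]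
      exact map_one ψ
    have h2 : ψ (1, 0) * ψ (0, 1) = 0 := by
      rw [← map_mul, Prod.mk_mul_mk, mul_zero, zero_mul]
      exact map_zero ψ
    rcases mul_eq_zero.1 h2 with h3 | h3
    · right
      rw [h3, zero_add] at h1
      refine ⟨{ toFun := fun y => ψ (0, y), map_one' := h1, map_mul' := ?_, map_zero' := map_zero ψ, map_add' := ?_ }, ?_⟩
      · intro y y'
        rw [← map_mul, Prod.mk_mul_mk, mul_zero]
      · intro y y'
        rw [← map_add, Prod.mk_add_mk, add_zero]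
      · intro x y
        show ψ (x, y) = ψ (0, y)
        have h4 : ((x, y) : A × B) = (x, 0) * (1, 0) + (0, y) := by
          simp
        rw [h4, map_add, map_mul, h3, mul_zero, zero_add]
    · left
      rw [h3, add_zero] at h1
      refine ⟨{ toFun := fun x => ψ (x, 0), map_one' := h1, map_mul' := ?_, map_zero' := map_zero ψ, map_add' := ?_ }, ?_⟩
      · intro y y'
        rw [← map_mul, Prod.mk_mul_mk, mul_zero]
      · intro y y'
        rw [← map_add, Prod.mk_add_mk, add_zero]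
      · intro x y
        show ψ (x, y) = ψ (x, 0)
        have h4 : ((x, y) : A × B) = (0, y) * (0, 1) + (x, 0) := by
          simp
        rw [h4, map_add, map_mul, h3, mul_zero, zero_add]
  classical
  have h5 : ∀ ψ : (A × B) →+* F, ∃ t : (A →+* F) ⊕ (B →+* F), (∀ α, t = Sum.inl α → ∀ x y, ψ (x, y) = α x) ∧
      ∀ β, t = Sum.inr β → ∀ x y, ψ (x, y) = β y := by
    intro ψ
    rcases h0 ψ with ⟨α, hα⟩ | ⟨β, hβ⟩
    · refine ⟨Sum.inl α, ?_, ?_⟩
      · rintro α' h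
        rw [← Sum.inl.inj h]
        exact hα
      · rintro β h
        exact absurd h (by simp)
    · refine ⟨Sum.inr β, ?_, ?_⟩
      · rintro β h
        exact absurd h (by simp)
      · rintro α' h
        rw [← Sum.inr.inj h]
        exact hβ
  choose Θ hΘ using h5
  refine ⟨Θ, ?_⟩
  intro ψ ψ' h
  apply RingHom.ext
  rintro ⟨x, y⟩
  rcases ht : Θ ψ with α | β
  · rw [(hΘ ψ).1 α ht, (hΘ ψ').1 α (h ▸ ht)]
  · rw [(hΘ ψ).2 β ht, (hΘ ψ').2 β (h ▸ ht)]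

end prod

theorem t_CNT : S_CNT := by
  rintro hIDX K K₂ _ _ _ _ ⟨e⟩
  obtain ⟨h1, m, hm, h2, h3⟩ := hIDX K K₂ e
  refine ⟨h1, ?_, ?_⟩
  · have d1 : NumberField.discr K ≠ 0 := NumberField.discr_ne_zero K
    have d2 : NumberField.discr K₂ ≠ 0 := NumberField.discr_ne_zero K₂
    have h4 : |NumberField.discr K| ^ (2 * Module.finrank ℚ K) =
        |m| ^ 2 * (|NumberField.discr K| * |NumberField.discr K₂|) := by
      rw [← abs_pow, h2, abs_mul, abs_mul, abs_pow]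
    have a1 : 1 ≤ |m| := Int.one_le_abs hm
    have a2 : 1 ≤ |NumberField.discr K| := Int.one_le_abs d1
    have a3 : 1 ≤ |NumberField.discr K₂| := Int.one_le_abs d2
    have h5 : |NumberField.discr K₂| ≤ |NumberField.discr K| ^ (2 * Module.finrank ℚ K) := by
      rw [h4]
      have a4 : 1 ≤ |m| ^ 2 := one_le_pow₀ a1
      nlinarith [mul_le_mul a4 a2 (by norm_num) (by positivity), abs_nonneg (NumberField.discr K₂),
        mul_nonneg (abs_nonneg (NumberField.discr K₂)) (abs_nonneg (NumberField.discr K))]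
    unfold ld
    have h6 : (|(NumberField.discr K₂ : ℝ)|) ≤ |(NumberField.discr K : ℝ)| ^ (2 * Module.finrank ℚ K) := by
      exact_mod_cast h5
    have h7 : (0 : ℝ) < |(NumberField.discr K₂ : ℝ)| := by
      have : (NumberField.discr K₂ : ℝ) ≠ 0 := by exact_mod_cast d2
      positivity
    calc Real.log |(NumberField.discr K₂ : ℝ)|
        ≤ Real.log (|(NumberField.discr K : ℝ)| ^ (2 * Module.finrank ℚ K)) := Real.log_le_log h7 h6
      _ = 2 * Module.finrank ℚ K * Real.log |(NumberField.discr K : ℝ)| := by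
          rw [Real.log_pow]
          push_cast
          ring
  · intro p hp hpd
    haveI : Fact p.Prime := ⟨hp⟩
    have hmp : (m : ZMod p) ≠ 0 := by
      intro h
      rw [ZMod.intCast_zmod_eq_zero_iff_dvd] at h
      apply hpd
      have h4 : (p : ℤ) ∣ NumberField.discr K ^ (2 * Module.finrank ℚ K) := by
        rw [h2]
        exact Dvd.dvd.mul_right (dvd_pow h (by norm_num)) _
      exact (Nat.prime_iff_prime_int.1 hp).dvd_of_dvd_pow h4
    rw [pi1_eq K p, pi1_eq K₂ p]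
    obtain ⟨Ψ, hΨ⟩ := psi_det (e := e) (m := m) p (idx_of e m h3) hmp
    obtain ⟨Θ, hΘ⟩ := exists_sum_injective (𝓞 K) (𝓞 K₂) (ZMod p)
    have h5 := Nat.card_le_card_of_injective _ (hΘ.comp hΨ)
    rw [Nat.card_prod, Nat.card_sum] at h5
    rw [sq]
    exact h5

end Pool.Agent.U891.ZF
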